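import Mathlib
import Pool.Agent.H53.XP.Main

/-!
# Extended Petersen graphs of prime order `n = 4k + 1` with `k` even

For every prime `n = 4k + 1` with `k` even and every `k`-subset `S` of `{1, …, 2k}` the extended
Petersen graph `XP(2n, S)` is Class 1.

Idea of the proof.  The distances in `S` and those outside `S` are paired.  For each pair of pairs
one chooses a block of four vertices `x, x + s, x + t, x + s + t` of `ℤ/n`; since `4k < n` the
blocks can be translated so as to be pairwise disjoint (Combinatorial Nullstellensatz with Dyson's
constant term).  The two Hamiltonian cycles given by a pair of distances are modified by one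
exchange so that removing the two edges of the block leaves two Hamiltonian paths, which are
coloured alternately with four private colours, each missing at exactly one of the four vertices
of the block; one common colour is used on the removed edges and on the spokes outside the blocks.
-/

set_option autoImplicit false

namespace Pool.Agent.Results.MP_45dba8_co.PrimeOrder

/-- For every prime `n = 4k + 1` with `k` even and every `S ⊆ {1, …, 2k}` with `|S| = k` the edges
of the extended Petersen graph `XP(2n, S)` can be properly coloured with `2k + 1` colours. -/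
theorem result :
    ∀ k : ℕ, (4 * k + 1).Prime → Even k → ∀ S : Finset ℕ, S ⊆ Finset.Icc 1 (2 * k) → S.card = k →
    ∀ G : SimpleGraph (ZMod (4 * k + 1) × Fin 2),
      (∀ p q : ZMod (4 * k + 1) × Fin 2, G.Adj p q ↔
        ((p.2 = 0 ∧ q.2 = 0 ∧ min (p.1 - q.1).val (q.1 - p.1).val ∈ S) ∨
         (p.2 = 1 ∧ q.2 = 1 ∧
            min (p.1 - q.1).val (q.1 - p.1).val ∈ Finset.Icc 1 (2 * k) \ S) ∨
         (p.1 = q.1 ∧ p.2 ≠ q.2))) →
      ∃ c : Sym2 (ZMod (4 * k + 1) × Fin 2) → Fin (2 * k + 1),
        ∀ e ∈ G.edgeSet, ∀ f ∈ G.edgeSet, e ≠ f →
          (∃ v, v ∈ e ∧ v ∈ f) → c e ≠ c f := by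
  intro k hp hk S hS hcard G hG
  obtain ⟨b, hb⟩ := hk
  exact Pool.Agent.H53.XP.main k hp b (by omega) S hS hcard G hG

end Pool.Agent.Results.MP_45dba8_co.PrimeOrder
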